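import Pool.Agent.R117.RL.ShellCst
import Pool.Agent.R117.RL.Plane

/-!
# The Lieb-Thirring kinetic inequality for closed shells of positive angular momentum

A closed shell system consists of the functions `u_{n,j}(x) = G_n(|x|) P_j(x)`, where the `P_j`,
`j < g`, are a full multiplet of angular momentum `l ≥ 1` (for example all coordinates, `l = 1`, or a
basis of the spherical harmonics of degree `l`, multiplied by `|x|^l`). For these orthonormal systems
the kinetic inequality holds with an explicit constant, which is at least the semiclassical one for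
`l = 1` in all dimensions `d ≥ 2` and for all `l ≥ 1` in the dimensions two and three.

Proof. With `f_n(r) = (σ / g)^(1/2) r^((d-1)/2 + l) G_n(r)` the `f_n` are orthonormal on the half line
and vanish at `0`, and the kinetic energy is `g ∑ ∫ |f_n'|² + c |f_n|² / r²` with
`c = (l + (d-1)/2) (l + (d-3)/2)`. The sharp one-dimensional inequality (starting file `ExactOneDim`)
bounds the first part by the cube of `∑ |f_n|²`; then the inequality of the means is used.
-/

open MeasureTheory Set

namespace Pool.Agent.Results.MP_cfe56d_mp.ClosedShells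

open Pool.Agent.R117.RL

/-- The kinetic inequality with the constant `K` for all closed shell systems with the multiplet
`P`. -/
def ShellBound {d g : ℕ} (P : Fin g → E d → ℝ) (K : ℝ) : Prop :=
  ∀ (N : ℕ) (u : Fin N → Fin g → E d → ℂ), ShellSystem P u →
    K * (∫ x : E d, (∑ n, ∑ j, ‖u n j x‖ ^ 2) ^ (1 + 2 / (d : ℝ))) ≤
      ∑ n, ∑ j, ∫ x, grad2 (u n j) x

/-- The integral of the density to the power `1 + 2 / d` converges. -/
def DensityIntegrable {d g : ℕ} (P : Fin g → E d → ℝ) : Prop :=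
  ∀ (N : ℕ) (u : Fin N → Fin g → E d → ℂ), ShellSystem P u →
    Integrable (fun x : E d => (∑ n, ∑ j, ‖u n j x‖ ^ 2) ^ (1 + 2 / (d : ℝ)))

/-- The centrifugal coefficient `(l + (d - 1) / 2) (l + (d - 3) / 2)`. -/
noncomputable def cf (d l : ℕ) : ℝ := (l + ((d : ℝ) - 1) / 2) * (l + ((d : ℝ) - 3) / 2)

/-- The constant for closed shells: `d (π² / 4)^(1/d) (cf / (d - 1))^((d-1)/d) (σ / g)^(2/d)`. -/
noncomputable def shellConst (d l g : ℕ) : ℝ :=
  d * (Real.pi ^ 2 / 4) ^ (1 / (d : ℝ)) * (cf d l / ((d : ℝ) - 1)) ^ (((d : ℝ) - 1) / (d : ℝ)) *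
    (sg d / g) ^ (2 / (d : ℝ))

theorem const_eq (k m g : ℕ) : shellConst (k + 1) (m + 1) g =
    CL k (((k : ℝ) / 2) ^ 2 - (k : ℝ) / 2 + ((m : ℝ) + 1) * ((m : ℝ) + k)) (sg (k + 1) / g) := by
  unfold shellConst CL
  have e3 : ((k + 1 : ℕ) : ℝ) = (k : ℝ) + 1 := by push_cast; ring
  have e1 : (k : ℝ) + 1 - 1 = k := by ring
  have e2 : cf (k + 1) (m + 1) =
      ((k : ℝ) / 2) ^ 2 - (k : ℝ) / 2 + ((m : ℝ) + 1) * ((m : ℝ) + k) := by
    unfold cf
    push_cast
    ring
  rw [e2, e3, e1]

theorem mono {d g : ℕ} {P : Fin g → E d → ℝ} {K K' : ℝ} (h : K' ≤ K) (hK : ShellBound P K) :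
    ShellBound P K' := by
  intro N u hu
  refine le_trans (mul_le_mul_of_nonneg_right h ?_) (hK N u hu)
  exact integral_nonneg fun x => Real.rpow_nonneg
    (Finset.sum_nonneg fun n _ => Finset.sum_nonneg fun j _ => sq_nonneg _) _

/-- **The kinetic inequality for closed shells.** `Shell l P`: the functions `P_j` are a multiplet of
angular momentum `l`; `ShellSystem P u`: the `u_{n,j}(x) = G_n(|x|) P_j(x)` are orthonormal with
finite kinetic energy; `grad2 u = |∇u|²`; `Kcl d` is the semiclassical constant; `plane l` are the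
real part and the imaginary part of `(x_1 + i x_2)^l`. -/
theorem result :
    -- (1) the inequality for all multiplets of positive angular momentum
    (∀ (d l g : ℕ) (P : Fin g → E d → ℝ), 2 ≤ d → 1 ≤ l → 1 ≤ g → Shell l P →
      DensityIntegrable P ∧ ShellBound P (shellConst d l g)) ∧
    -- (2) the semiclassical constant for angular momentum one
    (∀ (d : ℕ) (P : Fin d → E d → ℝ), 2 ≤ d → Shell 1 P → ShellBound P (Kcl d)) ∧
    -- (3) the semiclassical constant in dimension three, all closed shells with `2 l + 1` functions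
    (∀ (l : ℕ) (P : Fin (2 * l + 1) → E 3 → ℝ), 1 ≤ l → Shell l P → ShellBound P (Kcl 3)) ∧
    -- (4) the semiclassical constant in dimension two, all closed shells with two functions
    (∀ (l : ℕ) (P : Fin 2 → E 2 → ℝ), 1 ≤ l → Shell l P → ShellBound P (Kcl 2)) ∧
    -- (5) the coordinates, and the real and imaginary parts of the powers, are multiplets
    (∀ d : ℕ, Shell (d := d) 1 (fun (j : Fin d) (x : E d) => x j)) ∧
    (∀ l : ℕ, 1 ≤ l → Shell (d := 2) l (plane l)) := by
  have hmain : ∀ (d l g : ℕ) (P : Fin g → E d → ℝ), 2 ≤ d → 1 ≤ l → 1 ≤ g → Shell l P →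
      DensityIntegrable P ∧ ShellBound P (shellConst d l g) := by
    intro d l g P hd hl hg hP
    obtain ⟨k, rfl⟩ : ∃ k, d = k + 1 := ⟨d - 1, by omega⟩
    obtain ⟨m, rfl⟩ : ∃ m, l = m + 1 := ⟨l - 1, by omega⟩
    rw [const_eq]
    exact ⟨fun N u hu => (shell_system (by omega) hg hP u hu).1,
      fun N u hu => (shell_system (by omega) hg hP u hu).2⟩
  refine ⟨hmain, ?_, ?_, ?_, shell_coord, ?_⟩
  · intro d P hd hP
    refine mono ?_ (hmain d 1 d P hd le_rfl (by omega) hP).2
    obtain ⟨k, rfl⟩ : ∃ k, d = k + 1 := ⟨d - 1, by omega⟩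
    rw [show (1 : ℕ) = 0 + 1 from rfl, const_eq]
    exact Kcl_le_one (by omega)
  · intro l P hl hP
    refine mono ?_ (hmain 3 l (2 * l + 1) P (by norm_num) hl (by omega) hP).2
    obtain ⟨m, rfl⟩ : ∃ m, l = m + 1 := ⟨l - 1, by omega⟩
    rw [show (3 : ℕ) = 2 + 1 from rfl, const_eq, show 2 * (m + 1) + 1 = 2 * m + 3 by ring]
    exact Kcl_le_three m
  · intro l P hl hP
    refine mono ?_ (hmain 2 l 2 P le_rfl hl (by norm_num) hP).2
    obtain ⟨m, rfl⟩ : ∃ m, l = m + 1 := ⟨l - 1, by omega⟩
    have h1 := const_eq 1 m 2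
    rw [show (1 : ℕ) + 1 = 2 from rfl] at h1
    rw [h1]
    exact Kcl_le_two m
  · intro l hl
    obtain ⟨m, rfl⟩ : ∃ m, l = m + 1 := ⟨l - 1, by omega⟩
    exact shell_plane m

end Pool.Agent.Results.MP_cfe56d_mp.ClosedShells
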