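import Pool.Agent.R282.KE.Cx

set_option autoImplicit false

open MeasureTheory

namespace Pool.Agent.Results.MP_cfe56d_mp.EqualityCases

/-- `u` is the continuous representative of a function of the Sobolev space `H¹(ℝ; ℂ)` and `g` is
its weak derivative. -/
structure IsSobolev (u g : ℝ → ℂ) : Prop where
  memLp : MemLp u 2
  memLp_deriv : MemLp g 2
  integral_deriv : ∀ a b, u b - u a = ∫ x in a..b, g x

/-- The functions `u_1, …, u_N ∈ H¹(ℝ; ℂ)`, with weak derivatives `g_1, …, g_N`, are orthonormal in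
`L²(ℝ; ℂ)`. -/
structure IsSystem {N : ℕ} (u g : Fin N → ℝ → ℂ) : Prop where
  sobolev : ∀ n, IsSobolev (u n) (g n)
  orthonormal : ∀ n m, ∫ x, star (u n x) * u m x = if n = m then (1 : ℂ) else 0

/-- The equality cases of the sharp kinetic inequality `∑ ν_n ∫ |u_n'|² ≥ K₁ ∫ (∑ ν_n |u_n|²) ^ 3`
in dimension one, `K₁ = π² / 4`, for `N ≥ 1` orthonormal functions with occupation numbers
`0 < ν_n ≤ 1`: equality holds if and only if `N = 1`, `ν_1 = 1` and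
`u_1(x) = α √(b / cosh (π b (x - x₀)))` with `b > 0`, `x₀ ∈ ℝ` and `|α| = 1`. In particular, for
`ν = 1`, the sharp constant is attained only by the one-particle optimisers, and the inequality is
strict for all systems of `N ≥ 2` orthonormal functions. -/
theorem result :
    (∀ (N : ℕ) (u g : Fin N → ℝ → ℂ) (ν : Fin N → ℝ), 1 ≤ N → (∀ n, 0 < ν n ∧ ν n ≤ 1) →
      IsSystem u g →
      ((∑ n, ν n * ∫ x, ‖g n x‖ ^ 2 =
          Real.pi ^ 2 / 4 * ∫ x, (∑ n, ν n * ‖u n x‖ ^ 2) ^ 3) ↔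
        N = 1 ∧ (∀ n, ν n = 1) ∧ ∃ b : ℝ, 0 < b ∧ ∃ (x₀ : ℝ) (α : ℂ), ‖α‖ = 1 ∧
          ∀ n x, u n x = α * (√(b / Real.cosh (Real.pi * b * (x - x₀))) : ℝ))) ∧
    (∀ (N : ℕ) (u g : Fin N → ℝ → ℂ), 2 ≤ N → IsSystem u g →
      Real.pi ^ 2 / 4 * ∫ x, (∑ n, ‖u n x‖ ^ 2) ^ 3 < ∑ n, ∫ x, ‖g n x‖ ^ 2) := by
  have h1 : ∀ (N : ℕ) (u g : Fin N → ℝ → ℂ) (ν : Fin N → ℝ), 1 ≤ N →
      (∀ n, 0 < ν n ∧ ν n ≤ 1) → IsSystem u g →
      ((∑ n, ν n * ∫ x, ‖g n x‖ ^ 2 =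
          Real.pi ^ 2 / 4 * ∫ x, (∑ n, ν n * ‖u n x‖ ^ 2) ^ 3) ↔
        N = 1 ∧ (∀ n, ν n = 1) ∧ ∃ b : ℝ, 0 < b ∧ ∃ (x₀ : ℝ) (α : ℂ), ‖α‖ = 1 ∧
          ∀ n x, u n x = α * (√(b / Real.cosh (Real.pi * b * (x - x₀))) : ℝ)) :=
    fun N u g ν hN hν h => Pool.Agent.R282.KE.equality_iff N hN u g ν hν
      (fun n => (h.sobolev n).memLp) (fun n => (h.sobolev n).memLp_deriv)
      (fun n => (h.sobolev n).integral_deriv) h.orthonormal
  refine ⟨h1, fun N u g hN h => ?_⟩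
  have h2 := (Pool.Helper490.Calib.sharp_H1_complex u g (fun n => (h.sobolev n).memLp)
    (fun n => (h.sobolev n).memLp_deriv) (fun n => (h.sobolev n).integral_deriv) h.orthonormal).2
  refine lt_of_le_of_ne h2 fun heq => ?_
  have h3 := (h1 N u g (fun _ => 1) (by omega) (fun _ => ⟨one_pos, le_rfl⟩) h).1
    (by simp only [one_mul]; exact heq.symm)
  omega

end Pool.Agent.Results.MP_cfe56d_mp.EqualityCases
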