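import Pool.Agent.R117.RL.Gauss
import Pool.Agent.R117.RL.Asy

/-!
# The Lieb-Thirring kinetic inequality for orthonormal systems of radial functions

For orthonormal systems of radial functions the kinetic inequality holds with the semiclassical
constant in all dimensions `d ≥ 6`, and the optimal constant `R_d` for such systems satisfies
`(π e / 2) (d - 3) ≤ R_d ≤ (π e / 2) d` for `d ≥ 4`; so it is asymptotically attained by one Gaussian,
and `R_d / K_d^cl` has lower limit at least `e² / 4 > 1.84`.

Proof. If `u_n(x) = F_n(|x|)`, then the functions `f_n(r) = (σ r^(d-1))^(1/2) F_n(r)` are orthonormal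
on the half line, vanish at `0`, and `∫ |∇u_n|² = ∫ |f_n'|² + ((d-1)(d-3)/4) ∫ |f_n|² / r²`. The sharp
one-dimensional inequality (starting file `ExactOneDim`: `K_1 = π² / 4`) bounds the first term by the
cube of the density `s = ∑ |f_n|²`, and `(π²/4) s² + (d-1)(d-3)/(4 r²) ≥ C (s / (σ r^(d-1)))^(2/d)` by
the inequality of the means.
-/

open MeasureTheory Set Filter Topology

namespace Pool.Agent.Results.MP_cfe56d_mp.RadialSystems

open Pool.Agent.R117.RL

/-- The kinetic inequality with the constant `K` for the orthonormal systems of radial functions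
(`RadialSystem`) in dimension `d`. -/
def RadialBound (d : ℕ) (K : ℝ) : Prop :=
  ∀ (N : ℕ) (u : Fin N → E d → ℂ), RadialSystem u →
    K * (∫ x : E d, (∑ n, ‖u n x‖ ^ 2) ^ (1 + 2 / (d : ℝ))) ≤ ∑ n, ∫ x, grad2 (u n) x

/-- The integral of the density to the power `1 + 2 / d` converges for all radial systems. -/
def DensityIntegrable (d : ℕ) : Prop :=
  ∀ (N : ℕ) (u : Fin N → E d → ℂ), RadialSystem u →
    Integrable (fun x : E d => (∑ n, ‖u n x‖ ^ 2) ^ (1 + 2 / (d : ℝ)))

theorem mono {d : ℕ} {K K' : ℝ} (h : K' ≤ K) (hK : RadialBound d K) : RadialBound d K' := by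
  intro N u hu
  refine le_trans (mul_le_mul_of_nonneg_right h ?_) (hK N u hu)
  exact integral_nonneg fun x => Real.rpow_nonneg (Finset.sum_nonneg fun n _ => sq_nonneg _) _

/-- **The kinetic inequality for orthonormal systems of radial functions.** `RadialSystem u`: the
functions `u_n` on `ℝ^d` are radial, continuously differentiable away from the origin, have finite
kinetic energy and are orthonormal; `grad2 u` is `|∇u|²`; `Kcl d` is the semiclassical constant and
`CC d (sg d) = (d (d - 3) / 4) (π² / (d - 3)) ^ (1 / d) σ ^ (2 / d)`, `σ = sg d = d ω_d`. -/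
theorem result :
    -- (1) the inequality for `d ≥ 4`
    (∀ d : ℕ, 4 ≤ d → DensityIntegrable d ∧ RadialBound d (CC d (sg d)) ∧
      RadialBound d (Real.pi * Real.exp 1 / 2 * (d - 3))) ∧
    -- (2) the semiclassical constant for `d ≥ 6`
    (∀ d : ℕ, 6 ≤ d → RadialBound d (Kcl d)) ∧
    -- (3) the semiclassical constant times each number below `e² / 4 = 1.847...` for large `d`
    (∀ c : ℝ, c < Real.exp 1 ^ 2 / 4 → ∀ᶠ d : ℕ in atTop, RadialBound d (c * Kcl d)) ∧
    -- (4) upper bound for the optimal constant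
    (∀ (d : ℕ) (K : ℝ), 1 ≤ d → RadialBound d K → K ≤ Real.pi * Real.exp 1 / 2 * d) := by
  have hmain : ∀ d : ℕ, 4 ≤ d → DensityIntegrable d ∧ RadialBound d (CC d (sg d)) := by
    intro d hd
    obtain ⟨k, rfl⟩ : ∃ k, d = k + 1 := ⟨d - 1, by omega⟩
    exact ⟨fun N u hu => (radial_system (by omega) u hu).1,
      fun N u hu => (radial_system (by omega) u hu).2⟩
  refine ⟨fun d hd => ⟨(hmain d hd).1, (hmain d hd).2, mono (CC_ge hd) (hmain d hd).2⟩,
    fun d hd => mono (Kcl_le hd) (hmain d (by omega)).2, fun c hc => ?_, fun d K hd hK => ?_⟩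
  · filter_upwards [ratio hc, eventually_ge_atTop 4] with d hd hd4
    exact mono hd (hmain d hd4).2
  · obtain ⟨k, rfl⟩ : ∃ k, d = k + 1 := ⟨d - 1, by omega⟩
    exact upper k (hK 1)

end Pool.Agent.Results.MP_cfe56d_mp.RadialSystems
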