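import Pool.Agent.R282.KE.Rem

set_option autoImplicit false

open MeasureTheory Set

namespace Pool.Agent.Results.MP_cfe56d_mp.VarianceRemainder

/-- `u` is the continuous representative of a function of the Sobolev space `H¹(ℝ; ℂ)` and `g` is
its weak derivative. -/
structure IsSobolev (u g : ℝ → ℂ) : Prop where
  memLp : MemLp u 2
  memLp_deriv : MemLp g 2
  integral_deriv : ∀ a b, u b - u a = ∫ x in a..b, g x

/-- The functions `u_1, …, u_N ∈ H¹(ℝ; ℂ)`, with weak derivatives `g_1, …, g_N`, are orthonormal in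
`L²(ℝ; ℂ)`. -/
structure IsSystem {N : ℕ} (u g : Fin N → ℝ → ℂ) : Prop where
  sobolev : ∀ n, IsSobolev (u n) (g n)
  orthonormal : ∀ n m, ∫ x, star (u n x) * u m x = if n = m then (1 : ℂ) else 0

/-- The real part `K(x, y) = ∑ ν_n Re (u_n(x) conj u_n(y))` of the integral kernel of the density
matrix with eigenfunctions `u_n` and occupation numbers `ν_n`. Its diagonal is the density
`ρ(x) = ∑ ν_n |u_n(x)|²`. -/
noncomputable def kernel {N : ℕ} (u : Fin N → ℝ → ℂ) (ν : Fin N → ℝ) (x y : ℝ) : ℝ :=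
  ∑ n, ν n * (u n x * star (u n y)).re

/-- The density. -/
noncomputable def density {N : ℕ} (u : Fin N → ℝ → ℂ) (ν : Fin N → ℝ) (x : ℝ) : ℝ :=
  ∑ n, ν n * ‖u n x‖ ^ 2

/-- `V(x) = ρ(x) ∫∫_{y, z ≤ x} K(x, y) K(y, z) K(z, x) dz dy - (∫_{y ≤ x} K(x, y)² dy)²`. If
`Γ = ∫_{y ≤ x} U(y) ⊗ U(y) dy` denotes the Gram operator of the left half line, `U` the vector of
the real and imaginary parts of the functions `√ν_n u_n`, then `V(x) = |U|² |Γ U|² - ⟨U, Γ U⟩²` at
`x`, so `V(x) / ρ(x) ^ 2` is the variance of `Γ` in the direction of `U(x)`. -/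
noncomputable def variance {N : ℕ} (u : Fin N → ℝ → ℂ) (ν : Fin N → ℝ) (x : ℝ) : ℝ :=
  density u ν x * (∫ y in Iic x, kernel u ν x y * ∫ z in Iic x, kernel u ν y z * kernel u ν z x) -
    (∫ y in Iic x, kernel u ν x y ^ 2) ^ 2

/-- The sharp kinetic inequality in dimension one with a remainder term: for `N` orthonormal
functions of `H¹(ℝ; ℂ)` and occupation numbers `0 ≤ ν_n ≤ 1`,
`∑ ν_n ∫ |u_n'|² ≥ (π² / 4) ∫ ρ³ + (π² / 8) ∫ ρ V`, where `V ≥ 0`; all integrals converge. -/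
theorem result (N : ℕ) (u g : Fin N → ℝ → ℂ) (ν : Fin N → ℝ) (hν : ∀ n, 0 ≤ ν n ∧ ν n ≤ 1)
    (h : IsSystem u g) :
    (∀ x, 0 ≤ variance u ν x) ∧
    Integrable (fun x => density u ν x ^ 3) ∧
    Integrable (fun x => density u ν x * variance u ν x) ∧
    Real.pi ^ 2 / 4 * (∫ x, density u ν x ^ 3) +
      Real.pi ^ 2 / 8 * (∫ x, density u ν x * variance u ν x) ≤
        ∑ n, ν n * ∫ x, ‖g n x‖ ^ 2 := by
  have hd : ∀ x, Pool.Agent.R282.KE.ker u ν x x = density u ν x := by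
    intro x
    refine Finset.sum_congr rfl fun n _ => ?_
    have e : u n x * star (u n x) = ((‖u n x‖ ^ 2 : ℝ) : ℂ) := by
      rw [Complex.star_def, Complex.mul_conj, Complex.normSq_eq_norm_sq]
    rw [e, Complex.ofReal_re]
  have h1 := Pool.Agent.R282.KE.complex_remainder N u g ν hν
    (fun n => (h.sobolev n).memLp) (fun n => (h.sobolev n).memLp_deriv)
    (fun n => (h.sobolev n).integral_deriv) h.orthonormal
  simp only [hd] at h1
  exact h1

end Pool.Agent.Results.MP_cfe56d_mp.VarianceRemainder
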